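import Mathlib
import Pool.Agent.P8H89.OmF
import Pool.Agent.P8H89.OmG

set_option autoImplicit false

/-!
# Halting probabilities restricted to co-c.e. sets of outputs are random

Problem MP_f476d2_lc, Q1, positive answer: if `U` is a prefix-free machine that is universal by
adjunction and `X` is a co-c.e. set of strings with `Ω_U[X] > 0`, then `Ω_U[X]` is Martin-Löf
random.

The definitions (from `Pool.Agent.H561R3.Om.Defs`) are `PFMachine`, `UniversalByAdjunction`,
`Omega`, `ratOf`, `openOf`, `IsMLTest` and `MLRandomReal`. That machines which are universal by
adjunction exist is proved below (`exists_machine`), as a check of the definition.

Idea of the proof. Fix `x₀ ∈ X` and suppose that a test `(V_c)` covers `Ω_U[X]`. A machine adjoined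
to `U` runs, for every string `κ`, a strategy that believes that its own programs are the
extensions of `κ` in `U`. It has `T = 2 ^ (|κ| + 1)` levels. Level `l` has a target for the amount
of own programs, with output `x₀`, that have been issued, and the stage `s_l` at which this target
was set. When all the levels below `l` have reached their targets and level `l` has not, the
strategy waits until the current value `ν_s` of the mass of the programs with an output in `X_s`
lies in an interval of `V_c`, `c = s_l + |κ| + 3`, and then gives level `l - 1` a new target, such
that the own mass to be issued still fits into this interval. Level `0` issues programs at once.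
Since `ν_s` converges to `Ω_U[X]`, which is covered by all `V_c`, the strategy for the correct `κ`
issues everything. As the measure of `V_c` is small, at each level the programs whose outputs leave
`X` must compensate the own programs. The programs that were there when the level was started are
so large compared to the measure of `V_c` that they are of no use, and the mass that leaves can be
attributed to only one level, the one between whose start and the start of the level below the
program was born. So a mass of almost `2 ^ (-|κ|)` leaves for every level, which is more than `1`
altogether.
-/

namespace Pool.Agent.Results.MP_f476d2_lc.CoceRandom

open Pool.Agent.H561R3.Om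

/-- Sanity check: there are machines that are universal by adjunction. -/
theorem exists_machine : ∃ U : List Bool →. List Bool, UniversalByAdjunction U :=
  Pool.Agent.P8H89.Om.exists_universalByAdjunction

/-- If `U` is a prefix-free machine that is universal by adjunction and `X` is a co-c.e. set of
strings with `Ω_U[X] > 0`, then `Ω_U[X]` is Martin-Löf random. -/
theorem result (U : List Bool →. List Bool) (hU : UniversalByAdjunction U) (X : Set (List Bool))
    (hX : REPred fun x => x ∉ X) (hpos : 0 < Omega U X) : MLRandomReal (Omega U X) := by
  obtain ⟨hpf, M, σ, -, -, hall, -, -, hadj⟩ := hU
  refine Pool.Agent.P8H89.Om.main hpf ?_ hX ?_
  · intro N hN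
    obtain ⟨e, he⟩ := hall N hN
    exact ⟨σ e, fun p => by rw [hadj, he]⟩
  · by_contra h
    rw [Set.not_nonempty_iff_eq_empty] at h
    subst h
    simp [Omega] at hpos

end Pool.Agent.Results.MP_f476d2_lc.CoceRandom
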